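import Pool.Agent.Q7.GK.Stm
import Pool.Agent.Q252.LS.NSP
import Pool.Agent.Q190.LS.D1

/-!
# Project GK (helper7), job GFR (helper162): the rank is at most `(p - 1) s`
-/

set_option autoImplicit false

namespace Pool.Agent.Q162.GK

open NumberField IsDedekindDomain Filter Topology Finset
open Pool.Agent.Q7.LK
open Pool.Agent.Q7.LS (Ab Un nmU SUn NS IsBas sX)
open Pool.Agent.Q7.GK
open Pool.Agent.TeamU (Over act act_one act_mul exists_act)
open Pool.Agent.W289.SL (IsIwasawaLog)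
open Pool.Agent.Q252.LS (isGalois_kum over_of_ab lpw_of_free)

section

variable {F L : Type} [Field F] [NumberField F] [Field L] [NumberField L] [Algebra F L]

theorem ab_of_over {v : HeightOneSpectrum (𝓞 F)} {P : HeightOneSpectrum (𝓞 L)} (h : Over P v) : Ab v P :=
  Ideal.map_le_iff_le_comap.2 (le_of_eq h.symm)

/-- there are at most `p` primes above `v` -/
theorem card_above {p : ℕ} [Fact p.Prime] {ζ d : F} (hζ : IsPrimitiveRoot ζ p) (hK : Kum p F L d) (hd : ¬ IsPow p d)
    {v : HeightOneSpectrum (𝓞 F)} {A : Finset (HeightOneSpectrum (𝓞 L))} (hA : ∀ P, P ∈ A ↔ Ab v P) : A.card ≤ p := by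
  classical
  have hG : IsGalois F L := isGalois_kum hζ hK hd
  have hcard : Nat.card (L ≃ₐ[F] L) = p := by rw [IsGalois.card_aut_eq_finrank, hK.deg]
  rcases A.eq_empty_or_nonempty with rfl | ⟨P0, hP0⟩
  · simp
  · have hsub : A ⊆ (univ : Finset (L ≃ₐ[F] L)).image (fun σ => act σ P0) := by
      intro P hP
      obtain ⟨σ, hσ⟩ := exists_act (over_of_ab ((hA P0).1 hP0)) (over_of_ab ((hA P).1 hP))
      exact mem_image.2 ⟨σ, mem_univ σ, hσ⟩
    calc A.card ≤ _ := card_le_card hsub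
      _ ≤ (univ : Finset (L ≃ₐ[F] L)).card := card_image_le
      _ = p := by rw [card_univ, ← Nat.card_eq_fintype_card, hcard]

/-- only one prime above a place which does not split completely -/
theorem unique_above {p : ℕ} [Fact p.Prime] {ζ d : F} (hζ : IsPrimitiveRoot ζ p) (hK : Kum p F L d) (hd : ¬ IsPow p d)
    {v : HeightOneSpectrum (𝓞 F)} (hv : ¬ Lpw p v d) {P P' : HeightOneSpectrum (𝓞 L)} (hP : Ab v P) (hP' : Ab v P') :
    P' = P := by
  have hp : p.Prime := Fact.out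
  have hG : IsGalois F L := isGalois_kum hζ hK hd
  have hcard : Nat.card (L ≃ₐ[F] L) = p := by rw [IsGalois.card_aut_eq_finrank, hK.deg]
  have hO := over_of_ab hP
  have hd0 : d ≠ 0 := by
    rintro rfl
    exact hd ⟨0, by rw [zero_pow hp.ne_zero]⟩
  obtain ⟨ρ, hρ⟩ := hK.root
  by_cases hfix : ∃ σ : L ≃ₐ[F] L, σ ≠ 1 ∧ act σ P = P
  · obtain ⟨σ, hσ, hσP⟩ := hfix
    have hpow : ∀ n : ℕ, act (σ ^ n) P = P := by
      intro n
      induction n with
      | zero => rw [pow_zero, act_one]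
      | succ n ih => rw [pow_succ, act_mul, hσP, ih]
    obtain ⟨g, hg⟩ := exists_act hO (over_of_ab hP')
    obtain ⟨n, hn⟩ := mem_powers_of_prime_card hcard hσ (g' := g)
    rw [← hg, ← hn]
    exact hpow n
  · push Not at hfix
    exact absurd (lpw_of_free hd0 hρ hO hfix) hv

end

theorem lam_one {p : ℕ} [Fact p.Prime] {Lg : ℂ_[p] → ℂ_[p]} (hLg : IsIwasawaLog p Lg) {K : Type} [Field K] [NumberField K]
    (P : HeightOneSpectrum (𝓞 K)) : lam Lg P 1 = 0 := by
  have h2 : Lg 1 = 0 := by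
    have h := hLg.mul 1 1 one_ne_zero one_ne_zero
    rw [mul_one] at h
    exact left_eq_add.1 h
  unfold lam
  refine Finset.sum_eq_zero fun σ _ => ?_
  rw [map_one, h2]
  split_ifs <;> rfl

theorem norm_NS {F L : Type} [Field F] [NumberField F] [Field L] [NumberField L] [Algebra F L]
    {G : Set (HeightOneSpectrum (𝓞 F))} {x : Lˣ} (hx : x ∈ NS L G) : Algebra.norm F (x : L) = 1 := by
  have h1 : nmU F x = 1 := hx.2
  have h2 := congrArg (fun u : Fˣ => (u : F)) h1
  exact h2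

/-- **JOB GFR** -/
theorem gfr (hGN : S_GN) : S_GFR := by
  intro p _ hp2 Lg hLg F L _ _ _ _ _ ζ d hζ hK hd G hG hI
  classical
  obtain ⟨ε, hε, hind⟩ := hI
  obtain ⟨hN, -⟩ := hGN p Lg hLg F L
  have hSfin : {v | v ∈ G ∧ Lpw p v d}.Finite := (Pool.Agent.Q190.LS.D.fin_Dp p).subset (fun v hv => hG v hv.1)
  have hsX : sX p G d = hSfin.toFinset.card := Set.ncard_eq_toFinset_card _ hSfin
  have key : ∀ v : HeightOneSpectrum (𝓞 F), ∃ B : Finset (HeightOneSpectrum (𝓞 L)), B.card ≤ p - 1 ∧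
      (v ∈ G → Lpw p v d → ∀ a : Fin ((p - 1) * sX p G d + 1) → ℂ_[p],
        (∀ P ∈ B, ∑ i, a i * lam Lg P ((ε i : Lˣ) : L) = 0) →
        ∀ P, Ab v P → ∑ i, a i * lam Lg P ((ε i : Lˣ) : L) = 0) := by
    intro v
    by_cases hv : v ∈ G
    swap
    · exact ⟨∅, by simp, fun h => absurd h hv⟩
    obtain ⟨A, hA, hAs⟩ := hN v (hG v hv)
    rcases A.eq_empty_or_nonempty with rfl | ⟨P0, hP0⟩
    · refine ⟨∅, by simp, fun _ _ a _ P hP => ?_⟩
      exact absurd ((hA P).2 hP) (notMem_empty _)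
    · refine ⟨A.erase P0, ?_, fun _ _ a ha P hP => ?_⟩
      · rw [card_erase_of_mem hP0]
        exact Nat.sub_le_sub_right (card_above hζ hK hd hA) 1
      · by_cases hPP : P = P0
        · subst hPP
          have h1 : ∑ Q ∈ A, ∑ i, a i * lam Lg Q ((ε i : Lˣ) : L) = 0 := by
            rw [Finset.sum_comm]
            refine Finset.sum_eq_zero fun i _ => ?_
            rw [← Finset.mul_sum, hAs _ (Units.ne_zero _), norm_NS (hε i), lam_one hLg, mul_zero]
          rw [← Finset.add_sum_erase A _ hP0, Finset.sum_eq_zero (fun Q hQ => ha Q hQ), add_zero] at h1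
          exact h1
        · exact ha P (mem_erase.2 ⟨hPP, (hA P).2 hP⟩)
  choose B hB1 hB2 using key
  set X : Finset (HeightOneSpectrum (𝓞 L)) := hSfin.toFinset.biUnion B with hX
  have hXc : X.card ≤ (p - 1) * sX p G d := by
    rw [hsX, mul_comm]
    exact card_biUnion_le_card_mul _ _ _ fun v _ => hB1 v
  let f : (Fin ((p - 1) * sX p G d + 1) → ℂ_[p]) →ₗ[ℂ_[p]] (X → ℂ_[p]) :=
    { toFun := fun a P => ∑ i, a i * lam Lg P.1 ((ε i : Lˣ) : L)
      map_add' := by
        intro a b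
        funext P
        simp only [Pi.add_apply, add_mul, Finset.sum_add_distrib]
      map_smul' := by
        intro c a
        funext P
        simp only [Pi.smul_apply, smul_eq_mul, RingHom.id_apply, Finset.mul_sum, mul_assoc] }
  have hker : LinearMap.ker f ≠ ⊥ := by
    refine LinearMap.ker_ne_bot_of_finrank_lt ?_
    rw [Module.finrank_fintype_fun_eq_card, Module.finrank_fintype_fun_eq_card, Fintype.card_fin, Fintype.card_coe]
    omega
  obtain ⟨a, ha, ha0⟩ := (Submodule.ne_bot_iff _).1 hker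
  refine ha0 (hind a ?_)
  intro v hv P hP
  by_cases hL : Lpw p v d
  · refine hB2 v hv hL a ?_ P hP
    intro Q hQ
    have hQX : Q ∈ X := mem_biUnion.2 ⟨v, hSfin.mem_toFinset.2 ⟨hv, hL⟩, hQ⟩
    exact congrFun (LinearMap.mem_ker.1 ha) ⟨Q, hQX⟩
  · obtain ⟨A, hA, hAs⟩ := hN v (hG v hv)
    have hAP : A = {P} := by
      ext Q
      rw [hA, mem_singleton]
      exact ⟨fun h => unique_above hζ hK hd hL hP h, fun h => h ▸ hP⟩
    refine Finset.sum_eq_zero fun i _ => ?_
    have h1 := hAs _ (Units.ne_zero (ε i))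
    rw [hAP, sum_singleton, norm_NS (hε i), lam_one hLg] at h1
    rw [h1, mul_zero]

end Pool.Agent.Q162.GK
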